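import Mathlib
import Pool.Agent.X190.RS.Ore

/-!
# The right strong rank condition passes to Ore extensions with surjective twist

If `S = R[x; σ, δ]` fails the right strong rank condition, a matrix `A` of `x`-degree `d` embeds
`S^(n+1)` in `S^n`; iterating it embeds `S^((n+1)^k)` in `S^(n^k)` by a matrix of degree `k d`. As
`σ` is surjective, elements of degree `≤ m` are right polynomials `∑_{i ≤ m} x^i r_i`, and the right
coefficients of the iterated matrix embed `R^((n+1)^k)` in `R^(n^k (k d + 1))`. For large `k` this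
contradicts the right strong rank condition for `R`. The argument works for every extension whose
right growth over `R` is subexponential.
-/

set_option autoImplicit false

namespace Pool.Agent.Results.MP_62e324_al.SurjectiveTwist

universe u v

/-- The right strong rank condition: for no `n ≥ 1` is there an injective homomorphism of right
`A`-modules `A^(n+1) → A^n` (right modules are modules over the opposite ring `Aᵐᵒᵖ`, which acts on
`A` by right multiplication). -/
def RSRC (A : Type u) [Ring A] : Prop :=
  ∀ n : ℕ, 0 < n → ∀ f : (Fin (n + 1) → A) →ₗ[Aᵐᵒᵖ] (Fin n → A), ¬ Function.Injective f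

/-- `δ` is a `σ`-derivation. -/
def IsSkewDerivation {R : Type u} [Ring R] (σ : R →+* R) (δ : R →+ R) : Prop :=
  ∀ r s : R, δ (r * s) = δ r * s + σ r * δ s

/-- `S`, with `ι : R → S` and `x ∈ S`, is the Ore extension `R[x; σ, δ]`: `x r = σ(r) x + δ(r)` and
every element of `S` is uniquely of the form `∑ rᵢ xⁱ`. -/
structure IsOreExtension {R : Type u} {S : Type v} [Ring R] [Ring S] (σ : R →+* R) (δ : R →+ R)
    (ι : R →+* S) (x : S) : Prop where
  /-- the commutation rule -/
  comm : ∀ r : R, x * ι r = ι (σ r) * x + ι (δ r)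
  /-- unique representation -/
  repr : ∀ s : S, ∃! f : ℕ →₀ R, f.sum (fun i r => ι r * x ^ i) = s

/-- `S ⊇ R` has subexponential right growth: `S` is exhausted by an increasing sequence of additive
subgroups `F 0 ∋ 1, F 1, …` with `F i * F j ⊆ F (i + j)`, such that `F k` lies in a right
`R`-submodule of `S` with `g k` generators, and for all `n ≥ 1`, `d` some `k` satisfies
`g (k d) < (1 + 1/n)^k`. -/
structure SubexponentialGrowth {R : Type u} {S : Type v} [Ring R] [Ring S] (ι : R →+* S)
    (F : ℕ → AddSubgroup S) (g : ℕ → ℕ) : Prop where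
  mono : Monotone F
  one_mem : (1 : S) ∈ F 0
  mul_mem : ∀ i j : ℕ, ∀ a ∈ F i, ∀ b ∈ F j, a * b ∈ F (i + j)
  exhaust : ∀ a : S, ∃ i, a ∈ F i
  gen : ∀ k : ℕ, ∃ c : Fin (g k) → S, ∀ a ∈ F k, ∃ r : Fin (g k) → R, a = ∑ l, c l * ι (r l)
  growth : ∀ n d : ℕ, 0 < n → ∃ k : ℕ, g (k * d) * n ^ k < (n + 1) ^ k

/-- Q1: the right strong rank condition passes from `R` to every Ore extension `R[x; σ, δ]` with
`σ` surjective. More generally it passes to every ring `S ⊇ R` generated by `R` and an element `x`
with `x r = σ(r) x + δ(r)`, `σ` surjective (no freeness), and to every ring `S ⊇ R` of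
subexponential right growth over `R`. -/
theorem result :
    (∀ (R : Type u) (S : Type v) [Ring R] [Ring S] (σ : R →+* R) (δ : R →+ R) (ι : R →+* S) (x : S),
      Function.Surjective σ → IsSkewDerivation σ δ → IsOreExtension σ δ ι x → RSRC R → RSRC S) ∧
    (∀ (R : Type u) (S : Type v) [Ring R] [Ring S] (σ : R →+* R) (δ : R →+ R) (ι : R →+* S) (x : S),
      Function.Injective ι → Function.Surjective σ →
      (∀ r : R, x * ι r = ι (σ r) * x + ι (δ r)) →
      Subring.closure (Set.range ι ∪ {x}) = ⊤ → RSRC R → RSRC S) ∧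
    (∀ (R : Type u) (S : Type v) [Ring R] [Ring S] (ι : R →+* S) (F : ℕ → AddSubgroup S)
      (g : ℕ → ℕ), Function.Injective ι → SubexponentialGrowth ι F g → RSRC R → RSRC S) := by
  refine ⟨?_, ?_, ?_⟩
  · intro R S _ _ σ δ ι x hσ _ hS hR
    have hι : Function.Injective ι := by
      intro r s hrs
      obtain ⟨f, _, hf⟩ := hS.repr (ι r)
      have h1 : Finsupp.single 0 r = f := hf _ (by simp)
      have h2 : Finsupp.single 0 s = f := hf _ (by simp [hrs])
      exact Finsupp.single_injective 0 (h1.trans h2.symm)
    exact X190.RS.rsrc_of_subexp hι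
      (X190.RS.subexp_of_rel hσ hS.comm fun s => (hS.repr s).exists) hR
  · intro R S _ _ σ δ ι x hι hσ hx hgen hR
    have hall : ∀ s : S, ∃ i, s ∈ X190.RS.Fx ι x i := by
      intro s
      have hs : s ∈ Subring.closure (Set.range ι ∪ {x}) := by rw [hgen]; exact Subring.mem_top s
      induction hs using Subring.closure_induction with
      | mem a ha =>
        rcases ha with ⟨r, rfl⟩ | ha
        · exact ⟨0, by simpa using X190.RS.pow_mul_mem ι x (le_refl 0) r⟩
        · rw [Set.mem_singleton_iff] at ha
          subst ha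
          exact ⟨1, by simpa using X190.RS.pow_mul_mem ι a (le_refl 1) 1⟩
      | zero => exact ⟨0, AddSubgroup.zero_mem _⟩
      | one => exact ⟨0, by simpa using X190.RS.pow_mul_mem ι x (le_refl 0) 1⟩
      | add a b _ _ ha hb =>
        obtain ⟨i, hi⟩ := ha
        obtain ⟨j, hj⟩ := hb
        exact ⟨i + j, AddSubgroup.add_mem _ (X190.RS.Fx_mono ι x (Nat.le_add_right i j) hi)
          (X190.RS.Fx_mono ι x (Nat.le_add_left j i) hj)⟩
      | neg a _ ha =>
        obtain ⟨i, hi⟩ := ha
        exact ⟨i, AddSubgroup.neg_mem _ hi⟩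
      | mul a b _ _ ha hb =>
        obtain ⟨i, hi⟩ := ha
        obtain ⟨j, hj⟩ := hb
        exact ⟨i + j, X190.RS.mul_mem_Fx hσ hx i j a hi b hj⟩
    refine X190.RS.rsrc_of_subexp (F := X190.RS.Fx ι x) (g := fun k => k + 1) hι
      { mono := X190.RS.Fx_mono ι x
        one_mem := by simpa using X190.RS.pow_mul_mem ι x (le_refl 0) 1
        mul_mem := X190.RS.mul_mem_Fx hσ hx
        exhaust := hall
        gen := ?_
        growth := fun n d hn => X190.RS.linear_growth n d hn } hR
    intro k
    refine ⟨fun l => x ^ (l : ℕ), ?_⟩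
    rintro a ⟨c, rfl⟩
    exact ⟨fun l => c l, Finset.sum_range (fun i => x ^ i * ι (c i))⟩
  · intro R S _ _ ι F g hι h hR
    exact X190.RS.rsrc_of_subexp hι
      { mono := h.mono
        one_mem := h.one_mem
        mul_mem := h.mul_mem
        exhaust := h.exhaust
        gen := h.gen
        growth := h.growth } hR

end Pool.Agent.Results.MP_62e324_al.SurjectiveTwist
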